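import Mathlib
import Pool.Agent.NoQuad.Main
import Pool.Agent.NoQuad.NonDom
import Pool.Agent.NoQuad.NonBir

/-!
A smooth complex hypersurface of degree at least three and dimension at least two is not dominated
by a rational map from a projective space given by quadratic forms; in particular a smooth cubic
hypersurface has no rational parametrisation by quadratic forms.
-/

set_option autoImplicit false

namespace Pool.Agent.Results.MP_fb966c_ag.NoQuadraticParametrisation

open MvPolynomial

/-- Let `F` be a form of degree `d ≥ 3` in `n + 2 ≥ 4` variables whose partial derivatives have no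
common zero except `0`, and let `q_0, …, q_{n+1}` be quadratic forms in `m + 1` variables with
`F(q) = 0`.  Then the Jacobian matrix of `q` has rank at most `n` at every point, and there is a
form `G`, not divisible by `F`, with `G(q) = 0`: the rational map `P^m ⇢ X = {F = 0}` given by `q`
is not dominant.  For `m = n` there are no polynomials `r_0, …, r_n` and `h ≠ 0` with
`r_j(q) = h x_j` for all `j`: the map has no rational inverse. -/
theorem result (n d : ℕ) (hn : 2 ≤ n) (hd : 3 ≤ d) (F : MvPolynomial (Fin (n + 2)) ℂ)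
    (hF : F.IsHomogeneous d)
    (hs : ∀ y : Fin (n + 2) → ℂ, (∀ i, eval y (pderiv i F) = 0) → y = 0) :
    (∀ (m : ℕ) (q : Fin (n + 2) → MvPolynomial (Fin (m + 1)) ℂ),
      (∀ i, (q i).IsHomogeneous 2) → aeval q F = 0 →
        (∀ x : Fin (m + 1) → ℂ, (Matrix.of fun i j => eval x (pderiv j (q i))).rank ≤ n) ∧
        ∃ (s : ℕ) (G : MvPolynomial (Fin (n + 2)) ℂ),
          G.IsHomogeneous s ∧ ¬ F ∣ G ∧ aeval q G = 0) ∧
    (∀ q : Fin (n + 2) → MvPolynomial (Fin (n + 1)) ℂ,
      (∀ i, (q i).IsHomogeneous 2) → aeval q F = 0 →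
        ∀ (r : Fin (n + 1) → MvPolynomial (Fin (n + 2)) ℂ) (h : MvPolynomial (Fin (n + 1)) ℂ),
          h ≠ 0 → ¬ ∀ j, aeval q (r j) = h * X j) := by
  refine ⟨fun m q hq h0 => ?_, fun q hq h0 r h hh => ?_⟩
  · have h1 := NoQuad.rank_le n hn d hd F hF hs m q hq h0
    exact ⟨h1, NoQuad.not_dominant n d (by omega) F hF hs m q hq h1⟩
  · exact NoQuad.not_birational n q (NoQuad.rank_le n hn d hd F hF hs n q hq h0) r h hh

end Pool.Agent.Results.MP_fb966c_ag.NoQuadraticParametrisation
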